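import Mathlib

/-!
# The minimal `(m, n)`-product of Boolean algebras is not always the smallest one

For all infinite cardinals `n ≤ m` there are two Boolean algebras (both equal to the algebra of
clopen subsets of the Cantor space) with an `(m, n)`-product `Q` such that the minimal
`(m, n)`-product is not below `Q`.

The algebra of `Q` is generated, inside the regular open algebra of `Z × 2^ℕ` (`Z` the discrete
countable set of the finitely supported elements of the group `2^ℕ`), by the sets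
`{(z, x) | x ∈ a}` and `{(z, x) | x + z ∈ b}`. In it the countable meets
`d_z = ⋀_i (if z i = 0 then (x_i = y_i) else (x_i ≠ y_i))` have join one, while the corresponding
meets in the minimal product are zero, so that there is no homomorphism from `Q` to it.
-/

set_option autoImplicit false

open Set Cardinal TopologicalSpace

noncomputable section

namespace Pool.Agent.Results.MP_6fd33d_al.NotSmallest

/-- `B` is a Boolean `m`-algebra: all subsets of size at most `m` have a join and a meet. -/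
def IsMAlg (m : Cardinal.{0}) (B : Type) [BooleanAlgebra B] : Prop :=
  ∀ S : Set B, #S ≤ m → (∃ x, IsLUB S x) ∧ ∃ x, IsGLB S x

/-- `f` is an `m`-homomorphism: a homomorphism of Boolean algebras which preserves all joins and
meets of subsets of size at most `m` that exist in the domain. -/
structure IsMHom (m : Cardinal.{0}) {A B : Type} [BooleanAlgebra A] [BooleanAlgebra B]
    (f : A → B) : Prop where
  sup : ∀ x y, f (x ⊔ y) = f x ⊔ f y
  inf : ∀ x y, f (x ⊓ y) = f x ⊓ f y
  compl : ∀ x, f xᶜ = (f x)ᶜ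
  lub : ∀ (S : Set A) (x : A), #S ≤ m → IsLUB S x → IsLUB (f '' S) (f x)
  glb : ∀ (S : Set A) (x : A), #S ≤ m → IsGLB S x → IsGLB (f '' S) (f x)

/-- `G` generates `B` as a Boolean `m`-algebra: the only subset of `B` which contains `G` and is
closed under complements and under joins and meets of at most `m` elements is `B`. -/
def Generates (m : Cardinal.{0}) {B : Type} [BooleanAlgebra B] (G : Set B) : Prop :=
  ∀ C : Set B, G ⊆ C → (∀ x ∈ C, xᶜ ∈ C) →
    (∀ S : Set B, S ⊆ C → #S ≤ m → ∀ x, (IsLUB S x ∨ IsGLB S x) → x ∈ C) → C = Set.univ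

/-- `x` is the meet of the elements `i_t (a_t)`, `t ∈ T'`. -/
def IsRect {T : Type} {A : T → Type} {B : Type} [BooleanAlgebra B] (i : ∀ t, A t → B)
    (T' : Set T) (a : ∀ t, A t) (x : B) : Prop :=
  IsGLB {b | ∃ t ∈ T', b = i t (a t)} x

/-- The subalgebras `i_t (A_t)`, `t ∈ T'`, are independent as a family indexed by `T'`: the meet of
the `i_t (a_t)`, `t ∈ T'`, exists and is non-zero for all non-zero `a_t`, `t ∈ T'`. -/
def IndepOn {T : Type} {A : T → Type} [∀ t, BooleanAlgebra (A t)] {B : Type} [BooleanAlgebra B]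
    (i : ∀ t, A t → B) (T' : Set T) : Prop :=
  ∀ a : ∀ t, A t, (∀ t ∈ T', a t ≠ ⊥) → ∃ x, IsRect i T' a x ∧ x ≠ ⊥

/-- An `(m, 0)`-product of the family `A`. -/
structure MProduct (m : Cardinal.{0}) {T : Type} (A : T → Type) [∀ t, BooleanAlgebra (A t)] where
  /-- the algebra -/
  B : Type
  [str : BooleanAlgebra B]
  alg : IsMAlg m B
  /-- the embeddings of the factors -/
  i : ∀ t, A t → B
  hom : ∀ t, IsMHom m (i t)
  inj : ∀ t, Function.Injective (i t)
  indep : ∀ T' : Set T, T'.Finite → IndepOn i T'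
  gen : Generates m (⋃ t, range (i t))

instance {m : Cardinal.{0}} {T : Type} {A : T → Type} [∀ t, BooleanAlgebra (A t)]
    (P : MProduct m A) : BooleanAlgebra P.B := P.str

section classes

variable {m : Cardinal.{0}} {T : Type} {A : T → Type} [∀ t, BooleanAlgebra (A t)]

/-- `P` is an `(m, n)`-product: it belongs to the class `P_n`. -/
def InP (n : Cardinal.{0}) (P : MProduct m A) : Prop := ∀ T' : Set T, #T' ≤ n → IndepOn P.i T'

/-- `P` is a minimal `(m, n)`-product: every non-zero element lies above a non-zero meet of elements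
`i_t (a_t)`, `t ∈ T'`, with `T'` of size at most `n`. -/
def IsMin (n : Cardinal.{0}) (P : MProduct m A) : Prop :=
  InP n P ∧ ∀ b : P.B, b ≠ ⊥ →
    ∃ (T' : Set T) (a : ∀ t, A t) (x : P.B), #T' ≤ n ∧ IsRect P.i T' a x ∧ x ≠ ⊥ ∧ x ≤ b

/-- The order: `P' ≤ P` if some `m`-homomorphism from the algebra of `P` to the one of `P'` is
compatible with the embeddings of the factors. -/
def Below (P' P : MProduct m A) : Prop :=
  ∃ h : P.B → P'.B, IsMHom m h ∧ ∀ t a, h (P.i t a) = P'.i t a

end classes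

/-! ### General facts -/

section general

variable {A B : Type} [BooleanAlgebra A] [BooleanAlgebra B]

theorem glb_of_lub_compl {S : Set B} {x : B} (h : IsLUB (compl '' S) x) : IsGLB S xᶜ := by
  refine ⟨fun s hs => ?_, fun y hy => ?_⟩
  · have : sᶜ ≤ x := h.1 (mem_image_of_mem _ hs)
    simpa using compl_le_compl this
  · have : x ≤ yᶜ := h.2 (by
      rintro _ ⟨s, hs, rfl⟩
      exact compl_le_compl (hy hs))
    simpa using compl_le_compl this

theorem lub_compl_of_glb {S : Set B} {x : B} (h : IsGLB S x) : IsLUB (compl '' S) xᶜ := by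
  refine ⟨?_, fun y hy => ?_⟩
  · rintro _ ⟨s, hs, rfl⟩
    exact compl_le_compl (h.1 hs)
  · have : yᶜ ≤ x := h.2 (fun s hs => by
      have : sᶜ ≤ y := hy (mem_image_of_mem _ hs)
      simpa using compl_le_compl this)
    simpa using compl_le_compl this

theorem mk_compl_image (S : Set B) : #(compl '' S : Set B) ≤ #S := mk_image_le

/-- A map which preserves complements and all joins preserves all meets. -/
theorem glb_of_lub {f : A → B} (hc : ∀ x, f xᶜ = (f x)ᶜ)
    (hl : ∀ (S : Set A) (x : A), IsLUB S x → IsLUB (f '' S) (f x)) (S : Set A) (x : A)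
    (h : IsGLB S x) : IsGLB (f '' S) (f x) := by
  have h1 := hl _ _ (lub_compl_of_glb h)
  have h2 : f '' (compl '' S) = compl '' (f '' S) := by
    rw [image_image, image_image]
    exact image_congr fun y _ => hc y
  rw [h2, hc] at h1
  simpa using glb_of_lub_compl h1

end general

/-! ### The subalgebra generated by a set, inside a complete algebra -/

section gen

variable (m : Cardinal.{0}) {C : Type} [BooleanAlgebra C] (G : Set C)

/-- closed under complements and joins of at most `m` elements -/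
def Cl (D : Set C) : Prop :=
  (∀ x ∈ D, xᶜ ∈ D) ∧ ∀ S : Set C, S ⊆ D → #S ≤ m → ∀ x, IsLUB S x → x ∈ D

/-- the `m`-subalgebra generated by `G` -/
def genSet : Set C := {x | ∀ D : Set C, Cl m D → G ⊆ D → x ∈ D}

theorem subset_genSet : G ⊆ genSet m G := fun _ hx _ _ hG => hG hx

theorem cl_genSet : Cl m (genSet m G) := by
  refine ⟨fun x hx D hD hG => hD.1 x (hx D hD hG), fun S hS hm x hx D hD hG => ?_⟩
  exact hD.2 S (fun s hs => hS hs D hD hG) hm x hx

variable {m} in
/-- the `m`-subalgebra generated by `G`, as a Boolean subalgebra -/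
def genAlg (hm : ℵ₀ ≤ m) : BooleanSubalgebra C where
  carrier := genSet m G
  supClosed' := by
    intro x hx y hy
    refine (cl_genSet m G).2 {x, y} ?_ ?_ _ isLUB_pair
    · rintro z (rfl | rfl)
      · exact hx
      · exact hy
    · exact ((Set.toFinite {x, y}).lt_aleph0.le).trans hm
  infClosed' := by
    intro x hx y hy
    have h : x ⊓ y = (xᶜ ⊔ yᶜ)ᶜ := by simp
    rw [h]
    refine (cl_genSet m G).1 _ ((cl_genSet m G).2 {xᶜ, yᶜ} ?_ ?_ _ isLUB_pair)
    · rintro z (rfl | rfl)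
      · exact (cl_genSet m G).1 _ hx
      · exact (cl_genSet m G).1 _ hy
    · exact ((Set.toFinite {xᶜ, yᶜ}).lt_aleph0.le).trans hm
  compl_mem' := fun hx => (cl_genSet m G).1 _ hx
  bot_mem' := (cl_genSet m G).2 ∅ (empty_subset _) (by simp) _ isLUB_empty

variable {m} {G}

theorem lub_up (hm : ℵ₀ ≤ m) (hC : ∀ S : Set C, ∃ x, IsLUB S x) {S : Set (genAlg G hm)}
    (hS : #S ≤ m) : ∃ x : genAlg G hm, IsLUB S x ∧ IsLUB (Subtype.val '' S) (x : C) := by
  obtain ⟨x, hx⟩ := hC (Subtype.val '' S)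
  have hxm : x ∈ genSet m G := by
    refine (cl_genSet m G).2 _ ?_ (mk_image_le.trans hS) x hx
    rintro _ ⟨y, _, rfl⟩
    exact y.2
  refine ⟨⟨x, hxm⟩, ⟨fun s hs => ?_, fun y hy => ?_⟩, hx⟩
  · exact hx.1 (mem_image_of_mem _ hs)
  · refine hx.2 ?_
    rintro _ ⟨s, hs, rfl⟩
    exact hy hs

theorem lub_val (hm : ℵ₀ ≤ m) (hC : ∀ S : Set C, ∃ x, IsLUB S x) {S : Set (genAlg G hm)}
    (hS : #S ≤ m) {x : genAlg G hm} (hx : IsLUB S x) : IsLUB (Subtype.val '' S) (x : C) := by
  obtain ⟨y, hy, hy'⟩ := lub_up hm hC hS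
  rw [hx.unique hy]
  exact hy'

theorem glb_val (hm : ℵ₀ ≤ m) (hC : ∀ S : Set C, ∃ x, IsLUB S x) {S : Set (genAlg G hm)}
    (hS : #S ≤ m) {x : genAlg G hm} (hx : IsGLB S x) : IsGLB (Subtype.val '' S) (x : C) := by
  have h1 := lub_val hm hC ((mk_compl_image S).trans hS) (lub_compl_of_glb hx)
  have h2 : Subtype.val '' (compl '' S) = compl '' (Subtype.val '' S) := by
    rw [image_image, image_image]
    rfl
  rw [h2] at h1
  have h3 := glb_of_lub_compl h1
  have h4 : ((xᶜ : genAlg G hm) : C)ᶜ = (x : C) := by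
    rw [BooleanSubalgebra.val_compl, compl_compl]
  rwa [h4] at h3

theorem genAlg_isMAlg (hm : ℵ₀ ≤ m) (hC : ∀ S : Set C, ∃ x, IsLUB S x) :
    IsMAlg m (genAlg G hm) := by
  intro S hS
  refine ⟨?_, ?_⟩
  · obtain ⟨x, hx, _⟩ := lub_up hm hC hS
    exact ⟨x, hx⟩
  · obtain ⟨x, hx, _⟩ := lub_up hm hC ((mk_compl_image S).trans hS)
    exact ⟨xᶜ, glb_of_lub_compl hx⟩

theorem genAlg_gen (hm : ℵ₀ ≤ m) (H : Set (genAlg G hm))
    (hH : ∀ g (hg : g ∈ G), (⟨g, subset_genSet m G hg⟩ : genAlg G hm) ∈ H) :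
    Generates m H := by
  intro D hHD hDc hDl
  have key : genSet m G ⊆ Subtype.val '' D := by
    intro x hx
    refine hx _ ⟨?_, ?_⟩ ?_
    · rintro _ ⟨y, hy, rfl⟩
      exact ⟨yᶜ, hDc y hy, rfl⟩
    · intro S hS hSm x hx
      have hSG : S ⊆ genSet m G := by
        intro s hs
        obtain ⟨y, _, rfl⟩ := hS hs
        exact y.2
      have hxG : x ∈ genSet m G := (cl_genSet m G).2 S hSG hSm x hx
      refine ⟨⟨x, hxG⟩, hDl (Subtype.val ⁻¹' S) ?_ ?_ ⟨x, hxG⟩ (Or.inl ⟨?_, ?_⟩), rfl⟩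
      · intro z hz
        obtain ⟨y, hy, hyz⟩ := hS hz
        have : y = z := Subtype.ext hyz
        exact this ▸ hy
      · exact (mk_preimage_of_injective _ _ Subtype.val_injective).trans hSm
      · intro z hz
        exact hx.1 hz
      · intro z hz
        refine hx.2 fun s hs => ?_
        exact hz (show (⟨s, hSG hs⟩ : genAlg G hm) ∈ Subtype.val ⁻¹' S from hs)
    · intro g hg
      exact ⟨_, hHD (hH g hg), rfl⟩
  refine eq_univ_of_forall fun x => ?_
  obtain ⟨y, hy, hyx⟩ := key x.2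
  have : y = x := Subtype.ext hyx
  exact this ▸ hy

end gen

/-! ### The regular open algebra of a space and clopen sets -/

section top

variable {Y : Type} [TopologicalSpace Y]

/-- the regular open algebra of `Y` -/
def RO (Y : Type) [TopologicalSpace Y] : Type := Heyting.Regular (Opens Y)

instance : BooleanAlgebra (RO Y) := inferInstanceAs (BooleanAlgebra (Heyting.Regular (Opens Y)))

/-- the open set -/
def op (r : RO Y) : Opens Y := Heyting.Regular.val r

theorem op_injective : Function.Injective (op : RO Y → Opens Y) := Subtype.coe_injective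

theorem op_le {r s : RO Y} : op r ≤ op s ↔ r ≤ s := Iff.rfl

theorem op_inf (r s : RO Y) : op (r ⊓ s) = op r ⊓ op s := rfl

theorem op_compl (r : RO Y) : op rᶜ = (op r)ᶜ := rfl

theorem op_bot : op (⊥ : RO Y) = ⊥ := rfl

/-- the regularization of an open set -/
def reg (U : Opens Y) : RO Y := Heyting.Regular.toRegular U

theorem reg_le {U : Opens Y} {r : RO Y} : reg U ≤ r ↔ U ≤ op r := Heyting.Regular.gi.gc _ _

theorem le_op_reg (U : Opens Y) : U ≤ op (reg U) := reg_le.1 le_rfl

theorem ro_lub (S : Set (RO Y)) : ∃ x, IsLUB S x := by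
  refine ⟨reg (sSup (op '' S)), fun s hs => ?_, fun y hy => ?_⟩
  · exact op_le.1 ((le_sSup (mem_image_of_mem _ hs)).trans (le_op_reg _))
  · refine reg_le.2 (sSup_le ?_)
    rintro _ ⟨s, hs, rfl⟩
    exact op_le.2 (hy hs)

theorem disj_of_compl {r : RO Y} {y : Y} (h1 : y ∈ op r) (h2 : y ∈ op rᶜ) : False := by
  have h : op r ⊓ op rᶜ ≤ ⊥ := by
    rw [op_compl]
    exact (inf_compl_self _).le
  exact h (show y ∈ op r ⊓ op rᶜ from ⟨h1, h2⟩)

theorem clopen_compl (U : Clopens Y) : (U.toOpens)ᶜ = (Uᶜ).toOpens := by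
  refine le_antisymm ?_ ?_
  · intro y hy
    have h : U.toOpensᶜ ⊓ U.toOpens ≤ ⊥ := compl_inf_self _ |>.le
    change y ∉ (U : Set Y)
    intro hyU
    exact h (show y ∈ U.toOpensᶜ ⊓ U.toOpens from ⟨hy, hyU⟩)
  · rw [le_compl_iff_disjoint_right, disjoint_iff_inf_le]
    rintro y ⟨h1, h2⟩
    exact h1 h2

/-- a clopen set as an element of the regular open algebra -/
def kap (U : Clopens Y) : RO Y := ⟨U.toOpens, by
  change (U.toOpens)ᶜᶜ = U.toOpens
  rw [clopen_compl, clopen_compl, compl_compl]⟩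

theorem kap_op (U : Clopens Y) : op (kap U) = U.toOpens := rfl

theorem kap_inf (U V : Clopens Y) : kap (U ⊓ V) = kap U ⊓ kap V := op_injective rfl

theorem kap_compl (U : Clopens Y) : kap Uᶜ = (kap U)ᶜ := op_injective (clopen_compl U).symm

theorem kap_sup (U V : Clopens Y) : kap (U ⊔ V) = kap U ⊔ kap V := by
  have h : U ⊔ V = (Uᶜ ⊓ Vᶜ)ᶜ := by simp
  have h2 : kap U ⊔ kap V = ((kap U)ᶜ ⊓ (kap V)ᶜ)ᶜ := by simp
  rw [h2, h, kap_compl, kap_inf, kap_compl, kap_compl]

theorem kap_injective : Function.Injective (kap : Clopens Y → RO Y) := by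
  intro U V h
  have h1 : U.toOpens = V.toOpens := congrArg op h
  exact Clopens.ext (congrArg (fun W : Opens Y => (W : Set Y)) h1)

theorem kap_ne_bot {U : Clopens Y} {y : Y} (hy : y ∈ U) : kap U ≠ ⊥ := by
  intro h
  have h1 : op (kap U) = ⊥ := congrArg op h
  have h2 : y ∈ op (kap U) := hy
  rw [h1] at h2
  exact h2

theorem exists_mem_of_ne_bot {r : RO Y} (h : r ≠ ⊥) : ∃ y, y ∈ op r := by
  by_contra hcon
  push Not at hcon
  exact h (op_injective (le_bot_iff.1 fun y hy => hcon y hy))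

end top

/-- the Cantor space -/
abbrev X : Type := ℕ → Bool

/-- the algebra of clopen subsets of the Cantor space -/
abbrev CX : Type := Clopens X

theorem exists_clopen {W : Set X} (hW : IsOpen W) {p : X} (hp : p ∈ W) :
    ∃ K : CX, p ∈ K ∧ (K : Set X) ⊆ W := by
  obtain ⟨K, hK, hpK, hKW⟩ := isTopologicalBasis_isClopen.exists_subset_of_mem_open hp hW
  exact ⟨⟨K, hK⟩, hpK, hKW⟩

section pull

variable {Y : Type} [TopologicalSpace Y] {f : Y → X} (hf : Continuous f)

/-- the preimage of a clopen set -/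
def pull (a : CX) : Clopens Y := ⟨f ⁻¹' a, a.isClopen.preimage hf⟩

/-- the preimage of a clopen set in the regular open algebra -/
def emb (a : CX) : RO Y := kap (pull hf a)

theorem emb_sup (a b : CX) : emb hf (a ⊔ b) = emb hf a ⊔ emb hf b :=
  kap_sup (pull hf a) (pull hf b)

theorem emb_inf (a b : CX) : emb hf (a ⊓ b) = emb hf a ⊓ emb hf b :=
  kap_inf (pull hf a) (pull hf b)

theorem emb_compl (a : CX) : emb hf aᶜ = (emb hf a)ᶜ := kap_compl (pull hf a)

theorem emb_mono {a b : CX} (h : a ≤ b) : emb hf a ≤ emb hf b := by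
  rw [← inf_eq_left, ← emb_inf, inf_eq_left.2 h]

theorem emb_injective (hs : Function.Surjective f) : Function.Injective (emb hf) := by
  intro a b h
  have h1 : f ⁻¹' (a : Set X) = f ⁻¹' (b : Set X) :=
    congrArg (fun U : Clopens Y => (U : Set Y)) (kap_injective h)
  exact Clopens.ext (hs.preimage_injective h1)

theorem emb_lub (ho : IsOpenMap f) (S : Set CX) (x : CX) (hx : IsLUB S x) :
    IsLUB (emb hf '' S) (emb hf x) := by
  refine ⟨?_, fun c hc => ?_⟩
  · rintro _ ⟨s, hs, rfl⟩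
    exact emb_mono hf (hx.1 hs)
  · by_contra hcon
    have h1 : emb hf x ⊓ cᶜ ≠ ⊥ := by
      intro h
      apply hcon
      have := (disjoint_iff.2 h).le_compl_right
      rwa [compl_compl] at this
    obtain ⟨y, hy⟩ := exists_mem_of_ne_bot h1
    set W : Opens Y := op (emb hf x ⊓ cᶜ) with hW
    obtain ⟨K, hyK, hKW⟩ := exists_clopen (ho _ W.isOpen) (mem_image_of_mem f hy)
    have hKS : ∀ s ∈ S, s ≤ Kᶜ := by
      intro s hs z hz hzK
      obtain ⟨w, hw, rfl⟩ := hKW hzK
      have hw1 : w ∈ op (emb hf s) := hz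
      have hw2 : w ∈ op c := op_le.2 (hc (mem_image_of_mem _ hs)) hw1
      exact disj_of_compl hw2 hw.2
    have hxK : x ≤ Kᶜ := hx.2 hKS
    exact hxK (show f y ∈ x from hy.1) hyK

end pull

theorem lub_down {C : Type} [BooleanAlgebra C] {L : BooleanSubalgebra C} {S : Set L} {x : L}
    (h : IsLUB (Subtype.val '' S) (x : C)) : IsLUB S x := by
  refine ⟨fun s hs => h.1 (mem_image_of_mem _ hs), fun y hy => h.2 ?_⟩
  rintro _ ⟨s, hs, rfl⟩
  exact hy hs

theorem indepOn_of_pair {m : Cardinal.{0}} (hm : ℵ₀ ≤ m) {B : Type} [BooleanAlgebra B]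
    (hB : IsMAlg m B) (i : Bool → CX → B)
    (h : ∀ a b : CX, a ≠ ⊥ → b ≠ ⊥ → i false a ⊓ i true b ≠ ⊥) (T' : Set Bool) :
    IndepOn (A := fun _ : Bool => CX) i T' := by
  classical
  intro a ha
  have hfin : ({b | ∃ t ∈ T', b = i t (a t)} : Set B).Finite :=
    (Set.finite_range fun t => i t (a t)).subset (by
      rintro _ ⟨t, _, rfl⟩
      exact mem_range_self t)
  obtain ⟨x, hx⟩ := (hB _ (hfin.lt_aleph0.le.trans hm)).2
  refine ⟨x, hx, fun hbot => ?_⟩
  let a' : Bool → CX := fun t => if t ∈ T' then a t else ⊤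
  have ha' : ∀ t, a' t ≠ ⊥ := by
    intro t
    by_cases ht : t ∈ T'
    · simp only [a', if_pos ht]
      exact ha t ht
    · simp only [a', if_neg ht]
      intro hcon
      have h1 : (fun _ => false : X) ∈ (⊤ : CX) := trivial
      rw [hcon] at h1
      exact h1
  refine h (a' false) (a' true) (ha' false) (ha' true) (le_bot_iff.1 (hbot ▸ hx.2 ?_))
  rintro _ ⟨t, ht, rfl⟩
  have h1 : a' t = a t := by simp only [a', if_pos ht]
  cases t
  · exact h1 ▸ inf_le_left
  · exact h1 ▸ inf_le_right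

section prod

variable {m : Cardinal.{0}} (hm : ℵ₀ ≤ m) {Y : Type} [TopologicalSpace Y] (p : Bool → Y → X)
  (hc : ∀ t, Continuous (p t)) (ho : ∀ t, IsOpenMap (p t)) (hs : ∀ t, Function.Surjective (p t))
  (hj : ∀ a b : CX, a ≠ ⊥ → b ≠ ⊥ → ∃ y, p false y ∈ a ∧ p true y ∈ b)

/-- the generators -/
def gens : Set (RO Y) := ⋃ t, range (emb (hc t))

/-- the embeddings into the generated subalgebra -/
def incl (t : Bool) (a : CX) : genAlg (gens p hc) hm :=
  ⟨emb (hc t) a, subset_genSet _ _ (mem_iUnion.2 ⟨t, mem_range_self a⟩)⟩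

include ho in
theorem incl_hom (t : Bool) : IsMHom m (incl hm p hc t) := by
  have h1 : ∀ x, incl hm p hc t xᶜ = (incl hm p hc t x)ᶜ := fun x =>
    Subtype.ext (emb_compl (hc t) x)
  have h2 : ∀ (S : Set CX) (x : CX), IsLUB S x → IsLUB (incl hm p hc t '' S) (incl hm p hc t x) := by
    intro S x hx
    apply lub_down
    rw [image_image]
    exact emb_lub (hc t) (ho t) S x hx
  exact ⟨fun x y => Subtype.ext (emb_sup (hc t) x y), fun x y => Subtype.ext (emb_inf (hc t) x y),
    h1, fun S x _ => h2 S x, fun S x _ => glb_of_lub h1 h2 S x⟩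

include hj in
theorem incl_inf_ne (a b : CX) (ha : a ≠ ⊥) (hb : b ≠ ⊥) :
    incl hm p hc false a ⊓ incl hm p hc true b ≠ ⊥ := by
  obtain ⟨y, h1, h2⟩ := hj a b ha hb
  intro h
  have h3 : emb (hc false) a ⊓ emb (hc true) b = ⊥ := congrArg Subtype.val h
  have h4 : y ∈ op (emb (hc false) a ⊓ emb (hc true) b) := ⟨h1, h2⟩
  rw [h3] at h4
  exact h4

/-- the product given by two open maps to the Cantor space -/
def mkProd : MProduct m (fun _ : Bool => CX) where
  B := genAlg (gens p hc) hm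
  alg := genAlg_isMAlg hm ro_lub
  i := incl hm p hc
  hom := incl_hom hm p hc ho
  inj := fun t a b h => emb_injective (hc t) (hs t) (congrArg Subtype.val h)
  indep := fun T' _ => indepOn_of_pair hm (genAlg_isMAlg hm ro_lub) _
    (incl_inf_ne hm p hc hj) T'
  gen := by
    apply genAlg_gen
    intro g hg
    obtain ⟨t, a, rfl⟩ := mem_iUnion.1 hg
    exact mem_iUnion.2 ⟨t, a, rfl⟩

theorem mkProd_inP (n : Cardinal.{0}) : InP n (mkProd hm p hc ho hs hj) := fun T' _ =>
  indepOn_of_pair hm (genAlg_isMAlg hm ro_lub) _ (incl_inf_ne hm p hc hj) T'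

end prod

/-! ### The minimal product -/

/-- the two projections of `X × X` -/
def pM : Bool → X × X → X
  | false => Prod.fst
  | true => Prod.snd

theorem pM_cont (t : Bool) : Continuous (pM t) := by
  cases t
  · exact continuous_fst
  · exact continuous_snd

theorem pM_open (t : Bool) : IsOpenMap (pM t) := by
  cases t
  · exact isOpenMap_fst
  · exact isOpenMap_snd

theorem pM_surj (t : Bool) : Function.Surjective (pM t) := by
  cases t
  · exact Prod.fst_surjective
  · exact Prod.snd_surjective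

theorem exists_mem_of_ne_bot' {a : CX} (h : a ≠ ⊥) : ∃ x, x ∈ a := by
  by_contra hcon
  push Not at hcon
  exact h (Clopens.ext (Set.eq_empty_of_forall_notMem hcon))

theorem pM_joint (a b : CX) (ha : a ≠ ⊥) (hb : b ≠ ⊥) : ∃ y, pM false y ∈ a ∧ pM true y ∈ b := by
  obtain ⟨x, hx⟩ := exists_mem_of_ne_bot' ha
  obtain ⟨y, hy⟩ := exists_mem_of_ne_bot' hb
  exact ⟨(x, y), hx, hy⟩

/-- the minimal product -/
def prodM {m : Cardinal.{0}} (hm : ℵ₀ ≤ m) : MProduct m (fun _ : Bool => CX) :=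
  mkProd hm pM pM_cont pM_open pM_surj pM_joint

theorem prodM_min {n m : Cardinal.{0}} (hn : ℵ₀ ≤ n) (hm : ℵ₀ ≤ m) : IsMin n (prodM hm) := by
  refine ⟨mkProd_inP hm pM pM_cont pM_open pM_surj pM_joint n, fun b hb => ?_⟩
  have hb' : (b : genAlg (gens pM pM_cont) hm).1 ≠ ⊥ := fun h => hb (Subtype.ext h)
  obtain ⟨y, hy⟩ := exists_mem_of_ne_bot hb'
  obtain ⟨U, V, hU, hV, hyU, hyV, hUV⟩ :=
    isOpen_prod_iff.1 (op (b : genAlg (gens pM pM_cont) hm).1).isOpen y.1 y.2 hy
  obtain ⟨K, hyK, hKU⟩ := exists_clopen hU hyU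
  obtain ⟨L, hyL, hLV⟩ := exists_clopen hV hyV
  have hne : (incl hm pM pM_cont false K ⊓ incl hm pM pM_cont true L) ≠ ⊥ := by
    intro h
    have h3 : emb (pM_cont false) K ⊓ emb (pM_cont true) L = ⊥ := congrArg Subtype.val h
    have h4 : y ∈ op (emb (pM_cont false) K ⊓ emb (pM_cont true) L) := ⟨hyK, hyL⟩
    rw [h3] at h4
    exact h4
  refine ⟨Set.univ, fun t => if t then L else K,
    incl hm pM pM_cont false K ⊓ incl hm pM pM_cont true L, ?_, ⟨?_, ?_⟩, hne, ?_⟩
  · exact (Set.toFinite _).lt_aleph0.le.trans hn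
  · rintro _ ⟨t, _, rfl⟩
    cases t
    · exact inf_le_left
    · exact inf_le_right
  · intro z hz
    exact le_inf (hz ⟨false, trivial, rfl⟩) (hz ⟨true, trivial, rfl⟩)
  · change emb (pM_cont false) K ⊓ emb (pM_cont true) L ≤ b.1
    rw [← op_le]
    rintro ⟨u, v⟩ ⟨h1, h2⟩
    exact hUV ⟨hKU h1, hLV h2⟩

/-! ### The product `Q` -/

/-- finite sets of natural numbers, with the discrete topology -/
structure Idx where
  /-- the finite set -/
  F : Finset ℕ

instance : TopologicalSpace Idx := ⊥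

instance : DiscreteTopology Idx := ⟨rfl⟩

open Classical in
/-- change the bits in `F` -/
def flip (F : Finset ℕ) (x : X) : X := fun i => if i ∈ F then !(x i) else x i

theorem flip_flip (F : Finset ℕ) (x : X) : flip F (flip F x) = x := by
  funext i
  by_cases h : i ∈ F <;> simp [flip, h]

theorem flip_cont (F : Finset ℕ) : Continuous (flip F) := by
  refine continuous_pi fun i => ?_
  by_cases h : i ∈ F
  · simp only [flip, h, if_true]
    exact (continuous_of_discreteTopology (f := fun b : Bool => !b)).comp (continuous_apply i)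
  · simp only [flip, h, if_false]
    exact continuous_apply i

/-- the two maps -/
def pQ : Bool → Idx × X → X
  | false => fun y => y.2
  | true => fun y => flip y.1.F y.2

theorem pQ_cont (t : Bool) : Continuous (pQ t) := by
  cases t
  · exact continuous_snd
  · change Continuous fun y : Idx × X => flip y.1.F y.2
    exact continuous_prod_of_discrete_left.2 fun F => flip_cont F.F

theorem pQ_surj (t : Bool) : Function.Surjective (pQ t) := by
  cases t
  · exact fun x => ⟨(⟨∅⟩, x), rfl⟩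
  · exact fun x => ⟨(⟨∅⟩, x), by
      funext i
      simp [pQ, flip]⟩

theorem pQ_open (t : Bool) : IsOpenMap (pQ t) := by
  cases t
  · exact isOpenMap_snd
  · intro W hW
    have h1 : pQ true '' W = ⋃ F : Idx, (flip F.F) ⁻¹' ((fun x => (F, x)) ⁻¹' W) := by
      ext x
      simp only [mem_image, mem_iUnion, mem_preimage]
      constructor
      · rintro ⟨⟨F, y⟩, hy, rfl⟩
        refine ⟨F, ?_⟩
        change (F, flip F.F (flip F.F y)) ∈ W
        rwa [flip_flip]
      · rintro ⟨F, hF⟩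
        exact ⟨(F, flip F.F x), hF, flip_flip F.F x⟩
    rw [h1]
    exact isOpen_iUnion fun F => (hW.preimage (by fun_prop)).preimage (flip_cont F.F)

theorem exists_finset {W : Set X} (hW : IsOpen W) {x : X} (hx : x ∈ W) :
    ∃ J : Finset ℕ, ∀ y : X, (∀ i ∈ J, y i = x i) → y ∈ W := by
  obtain ⟨J, u, hu, hJ⟩ := isOpen_pi_iff.1 hW x hx
  refine ⟨J, fun y hy => hJ fun i hi => ?_⟩
  rw [hy i hi]
  exact (hu i hi).2

theorem pQ_joint (a b : CX) (ha : a ≠ ⊥) (hb : b ≠ ⊥) : ∃ y, pQ false y ∈ a ∧ pQ true y ∈ b := by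
  classical
  obtain ⟨x, hx⟩ := exists_mem_of_ne_bot' ha
  obtain ⟨y, hy⟩ := exists_mem_of_ne_bot' hb
  obtain ⟨J, hJ⟩ := exists_finset b.isOpen hy
  refine ⟨(⟨J.filter (fun i => x i ≠ y i)⟩, x), hx, hJ _ fun i hi => ?_⟩
  change flip _ x i = y i
  by_cases h : x i = y i
  · simp [flip, h]
  · have h2 : x i = !(y i) := by
      cases hxi : x i <;> cases hyi : y i <;> simp_all
    simp [flip, hi, h2]

/-- the product `Q` -/
def prodQ {m : Cardinal.{0}} (hm : ℵ₀ ≤ m) : MProduct m (fun _ : Bool => CX) :=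
  mkProd hm pQ pQ_cont pQ_open pQ_surj pQ_joint

/-- the set of the points with `i`-th coordinate one -/
def bet (i : ℕ) : CX := ⟨{x | x i = true}, by
  have h : {x : X | x i = true} = (fun x : X => x i) ⁻¹' {true} := rfl
  rw [h]
  exact (isClopen_discrete _).preimage (continuous_apply i)⟩

theorem shrink {a : CX} (ha : a ≠ ⊥) :
    ∃ J : Finset ℕ, ∀ i ∉ J, a ⊓ bet i ≠ ⊥ ∧ a ⊓ (bet i)ᶜ ≠ ⊥ := by
  classical
  obtain ⟨x, hx⟩ := exists_mem_of_ne_bot' ha
  obtain ⟨J, hJ⟩ := exists_finset a.isOpen hx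
  refine ⟨J, fun i hi => ⟨fun h => ?_, fun h => ?_⟩⟩
  · have h1 : Function.update x i true ∈ a ⊓ bet i :=
      ⟨hJ _ fun j hj => Function.update_of_ne (ne_of_mem_of_not_mem hj hi) _ _, by
        change Function.update x i true i = true
        simp⟩
    rw [h] at h1
    exact h1
  · have h1 : Function.update x i false ∈ a ⊓ (bet i)ᶜ :=
      ⟨hJ _ fun j hj => Function.update_of_ne (ne_of_mem_of_not_mem hj hi) _ _, by
        change ¬ (Function.update x i false i = true)
        simp⟩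
    rw [h] at h1
    exact h1

section main

variable {m : Cardinal.{0}}

/-- the element which says that the `i`-th coordinates of the two points differ -/
def diff (P : MProduct m (fun _ : Bool => CX)) (i : ℕ) : P.B :=
  (P.i false (bet i) ⊓ (P.i true (bet i))ᶜ) ⊔ ((P.i false (bet i))ᶜ ⊓ P.i true (bet i))

open Classical in
/-- the element which says that the `i`-th coordinates of the two points differ if and only if `i`
belongs to `F` -/
def cond (P : MProduct m (fun _ : Bool => CX)) (F : Finset ℕ) (i : ℕ) : P.B :=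
  if i ∈ F then diff P i else (diff P i)ᶜ

theorem min_zero {n : Cardinal.{0}} (M : MProduct m (fun _ : Bool => CX))
    (hM : IsMin n M) (F : Finset ℕ) (x : M.B) (hx : ∀ i, x ≤ cond M F i) : x = ⊥ := by
  classical
  by_contra hne
  obtain ⟨T', a, r, _, hr, hr0, hrx⟩ := hM.2 x hne
  let a' : Bool → CX := fun t => if t ∈ T' then a t else ⊤
  have htop : (⊤ : CX) ≠ ⊥ := by
    intro hcon
    have h1 : (fun _ => false : X) ∈ (⊤ : CX) := trivial
    rw [hcon] at h1
    exact h1
  have hibot : ∀ t, M.i t ⊥ = ⊥ := by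
    intro t
    have h1 := (M.hom t).inf ⊤ ⊥
    have h2 := (M.hom t).compl ⊤
    rw [compl_top] at h2
    have h3 : (⊤ : CX) ⊓ ⊥ = ⊥ := by simp
    rw [h3, h2, inf_compl_self] at h1
    rw [h2]
    exact h1
  have ha' : ∀ t, a' t ≠ ⊥ := by
    intro t
    by_cases ht : t ∈ T'
    · simp only [a', if_pos ht]
      intro h
      apply hr0
      refine le_bot_iff.1 ?_
      have h1 : r ≤ M.i t (a t) := hr.1 ⟨t, ht, rfl⟩
      rw [h, hibot] at h1
      exact h1
    · simp only [a', if_neg ht]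
      exact htop
  have hle : M.i false (a' false) ⊓ M.i true (a' true) ≤ r := by
    refine hr.2 ?_
    rintro _ ⟨t, ht, rfl⟩
    have h1 : a' t = a t := by simp only [a', if_pos ht]
    cases t
    · exact h1 ▸ inf_le_left
    · exact h1 ▸ inf_le_right
  have hmono : ∀ t (u v : CX), u ≤ v → M.i t u ≤ M.i t v := by
    intro t u v huv
    have h1 := (M.hom t).inf u v
    rw [inf_eq_left.2 huv] at h1
    exact h1 ▸ inf_le_right
  obtain ⟨J₁, hJ₁⟩ := shrink (ha' false)
  obtain ⟨J₂, hJ₂⟩ := shrink (ha' true)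
  obtain ⟨i, hi⟩ := Infinite.exists_notMem_finset (F ∪ J₁ ∪ J₂)
  simp only [Finset.mem_union, not_or] at hi
  obtain ⟨⟨hiF, hi1⟩, hi2⟩ := hi
  have hcond : cond M F i = (diff M i)ᶜ := by simp [cond, hiF]
  set ρ := M.i false (a' false ⊓ bet i) ⊓ M.i true (a' true ⊓ (bet i)ᶜ) with hρ
  have hρ1 : ρ ≤ (diff M i)ᶜ := by
    rw [← hcond]
    refine le_trans ?_ ((hle.trans hrx).trans (hx i))
    exact inf_le_inf (hmono _ _ _ inf_le_left) (hmono _ _ _ inf_le_left)
  have hρ2 : ρ ≤ diff M i := by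
    refine le_trans ?_ le_sup_left
    refine inf_le_inf (hmono _ _ _ inf_le_right) ?_
    rw [← (M.hom true).compl]
    exact hmono _ _ _ inf_le_right
  have hρ0 : ρ = ⊥ := le_bot_iff.1 ((le_inf hρ2 hρ1).trans (inf_compl_self _).le)
  obtain ⟨y, hy, hy0⟩ := M.indep Set.univ Set.finite_univ
    (fun t => if t then a' true ⊓ (bet i)ᶜ else a' false ⊓ bet i) (by
      intro t _
      cases t
      · exact (hJ₁ i hi1).1
      · exact (hJ₂ i hi2).2)
  apply hy0
  refine le_bot_iff.1 (hρ0 ▸ le_inf ?_ ?_)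
  · exact hy.1 ⟨false, trivial, rfl⟩
  · exact hy.1 ⟨true, trivial, rfl⟩

/-- the set where the `i`-th coordinates differ, as a clopen set -/
def diffSet (i : ℕ) : Clopens (Idx × X) :=
  (pull (pQ_cont false) (bet i) ⊓ (pull (pQ_cont true) (bet i))ᶜ) ⊔
    ((pull (pQ_cont false) (bet i))ᶜ ⊓ pull (pQ_cont true) (bet i))

theorem diff_val (hm : ℵ₀ ≤ m) (i : ℕ) :
    (show genAlg (gens pQ pQ_cont) hm from diff (prodQ hm) i).1 = kap (diffSet i) := by
  rw [diffSet, kap_sup, kap_inf, kap_inf, kap_compl, kap_compl]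
  rfl

theorem mem_diffSet (F : Finset ℕ) (x : X) (i : ℕ) : (Idx.mk F, x) ∈ diffSet i ↔ i ∈ F := by
  classical
  change ((x i = true ∧ ¬ (flip F x i = true)) ∨ (¬ (x i = true) ∧ flip F x i = true)) ↔ i ∈ F
  by_cases h : i ∈ F
  · cases hx : x i <;> simp [flip, h, hx]
  · cases hx : x i <;> simp [flip, h, hx]

theorem cond_mem (hm : ℵ₀ ≤ m) (F : Finset ℕ) (x : X) (i : ℕ) :
    (Idx.mk F, x) ∈ op (show genAlg (gens pQ pQ_cont) hm from cond (prodQ hm) F i).1 := by
  classical
  by_cases h : i ∈ F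
  · have h1 : cond (prodQ hm) F i = diff (prodQ hm) i := by simp [cond, h]
    rw [h1, diff_val]
    exact (mem_diffSet F x i).2 h
  · have h1 : cond (prodQ hm) F i = (diff (prodQ hm) i)ᶜ := by simp [cond, h]
    rw [h1]
    change (Idx.mk F, x) ∈ op ((show genAlg (gens pQ pQ_cont) hm from diff (prodQ hm) i).1)ᶜ
    rw [diff_val, ← kap_compl]
    exact fun h2 => h ((mem_diffSet F x i).1 h2)

theorem Q_top (hm : ℵ₀ ≤ m) (u : (prodQ hm).B)
    (hu : ∀ (F : Finset ℕ) (d : (prodQ hm).B), IsGLB (range (cond (prodQ hm) F)) d → d ≤ u) :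
    u = ⊤ := by
  by_contra hne
  have hne' : uᶜ ≠ ⊥ := fun h => hne (compl_eq_bot.1 h)
  have hne2 : (show genAlg (gens pQ pQ_cont) hm from uᶜ).1 ≠ ⊥ := fun h => hne' (Subtype.ext h)
  obtain ⟨⟨⟨F⟩, x⟩, hFx⟩ := exists_mem_of_ne_bot hne2
  obtain ⟨d, hd⟩ := ((prodQ hm).alg (range (cond (prodQ hm) F))
    ((Cardinal.mk_range_le.trans (by simp)).trans hm)).2
  have hdR := glb_val (G := gens pQ pQ_cont) hm ro_lub
    (S := range (cond (prodQ hm) F)) ((Cardinal.mk_range_le.trans (by simp)).trans hm) hd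
  let W : Opens (Idx × X) :=
    op (show genAlg (gens pQ pQ_cont) hm from uᶜ).1 ⊓
      ⟨Prod.fst ⁻¹' {Idx.mk F}, (isOpen_discrete _).preimage continuous_fst⟩
  have hW1 : reg W ≤ (show genAlg (gens pQ pQ_cont) hm from uᶜ).1 := reg_le.2 inf_le_left
  have hW2 : reg W ≤ (show genAlg (gens pQ pQ_cont) hm from d).1 := by
    refine hdR.2 ?_
    rintro _ ⟨_, ⟨i, rfl⟩, rfl⟩
    refine reg_le.2 ?_
    rintro ⟨F', y⟩ ⟨_, hF'⟩
    have hF2 : F' = Idx.mk F := hF'
    subst hF2
    exact cond_mem hm F y i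
  have hW3 : reg W ≤ (show genAlg (gens pQ pQ_cont) hm from u).1 := hW2.trans (hu F d hd)
  have hmem : (Idx.mk F, x) ∈ op (reg W) := le_op_reg W ⟨hFx, rfl⟩
  exact disj_of_compl (op_le.2 hW3 hmem) (op_le.2 hW1 hmem)

theorem not_below {n : Cardinal.{0}} (hm : ℵ₀ ≤ m) (M : MProduct m (fun _ : Bool => CX))
    (hM : IsMin n M) : ¬ Below M (prodQ hm) := by
  rintro ⟨h, hh, hi⟩
  have hcard : ∀ F, #(range (cond (prodQ hm) F)) ≤ m := fun F =>
    (Cardinal.mk_range_le.trans (by simp)).trans hm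
  choose d hd using fun F => ((prodQ hm).alg (range (cond (prodQ hm) F)) (hcard F)).2
  have hlub : IsLUB (range d) ⊤ := by
    refine ⟨fun _ _ => le_top, fun u hu => ?_⟩
    refine (Q_top hm u fun F d' hd' => ?_).ge
    rw [hd'.unique (hd F)]
    exact hu (mem_range_self F)
  have hcard2 : #(range d) ≤ m := (Cardinal.mk_range_le.trans (by simp)).trans hm
  have h1 := hh.lub _ _ hcard2 hlub
  have hdiff : ∀ i, h (diff (prodQ hm) i) = diff M i := by
    intro i
    simp only [diff, hh.sup, hh.inf, hh.compl, hi]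
  have hcond : ∀ F i, h (cond (prodQ hm) F i) = cond M F i := by
    intro F i
    by_cases hiF : i ∈ F
    · simp [cond, hiF, hdiff]
    · simp [cond, hiF, hdiff, hh.compl]
  have hd0 : ∀ F, h (d F) = ⊥ := by
    intro F
    have h2 := hh.glb _ _ (hcard F) (hd F)
    refine min_zero M hM F _ fun i => ?_
    rw [← hcond F i]
    exact h2.1 (mem_image_of_mem _ (mem_range_self i))
  have htop : h ⊤ = ⊥ := by
    refine le_bot_iff.1 (h1.2 ?_)
    rintro _ ⟨_, ⟨F, rfl⟩, rfl⟩
    exact (hd0 F).le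
  have htop2 : h ⊤ = ⊤ := by
    have h2 := hh.sup ⊤ ⊤ᶜ
    rw [hh.compl, sup_compl_eq_top, sup_compl_eq_top] at h2
    exact h2
  obtain ⟨x, _, hx0⟩ := M.indep ∅ Set.finite_empty (fun _ => ⊥) (by simp)
  apply hx0
  rw [← le_bot_iff, ← htop, htop2]
  exact le_top

end main

/-- For all infinite cardinals `n ≤ m` there is a family of non-degenerate Boolean algebras which has
a minimal `(m, n)`-product, and an `(m, n)`-product `Q` such that no minimal `(m, n)`-product is
below `Q`. -/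
theorem result (n m : Cardinal.{0}) (hn : ℵ₀ ≤ n) (hnm : n ≤ m) :
    ∃ (T : Type) (A : T → Type) (_ : ∀ t, BooleanAlgebra (A t)), (∀ t, (⊥ : A t) ≠ ⊤) ∧
      (∃ M : MProduct m A, IsMin n M) ∧
      ∃ Q : MProduct m A, InP n Q ∧ ∀ M : MProduct m A, IsMin n M → ¬ Below M Q := by
  have hm : ℵ₀ ≤ m := hn.trans hnm
  refine ⟨Bool, fun _ => CX, fun _ => inferInstance, fun _ h => ?_, ⟨prodM hm, prodM_min hn hm⟩,
    prodQ hm, mkProd_inP hm pQ pQ_cont pQ_open pQ_surj pQ_joint n, fun M hM => not_below hm M hM⟩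
  have h1 : (fun _ => false : X) ∈ (⊤ : CX) := trivial
  rw [← h] at h1
  exact h1

end Pool.Agent.Results.MP_6fd33d_al.NotSmallest
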